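import Mathlib

/-!
# EV: the analytic master theorem (helper39, project EV of helper43)

Everything about braids enters through two hypotheses on the polynomial `X`
(`t = 4 (sinh φ) ^ 2 = z ^ 2`, `z = 2 sinh φ`):

* `hsec`: in the half strip `0 < Re φ ≤ Φ`, `|Im φ| ≤ θ` the number `|X(t)| exp (-m Re φ)` lies
  between `c (Re φ) ^ N` and `C / (Re φ) ^ N` (Lemma C of helper43: all eigenvalues of the word
  matrix have modulus at most `1 - δ (1 - exp (-4 Re φ))`; `det (1 - W)` is then between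
  `(δ a) ^ (n - 1)` and `2 ^ (n - 1)`);
* `htail`: on the circles of radius `r ∈ [ε, 4 sinh² Φ]` the tail bound.

Conclusion: log-concavity at every `k ≤ (m / 2) (tanh Φ - η)` when `m ≥ m0`, where `m0` depends
only on the constants.
-/

set_option autoImplicit false

open scoped Real

namespace Pool.Agent.Helper39.EV

/-- The statement of the master theorem. -/
def MasterTarget : Prop :=
  ∀ (N : ℕ) (θ Φ c C η : ℝ) (c3 C3 : ℝ → ℝ), 0 < θ → 0 < Φ → 0 < c → 0 < C → 0 < η →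
    (∀ ε : ℝ, 0 < ε → 0 < c3 ε) →
    ∃ m0 : ℕ, ∀ m : ℕ, m0 ≤ m → ∀ X : Polynomial ℝ,
      (∀ j, 0 ≤ X.coeff j) → 1 ≤ X.coeff 0 → X.natDegree ≤ m →
      (∀ φ : ℂ, 0 < φ.re → φ.re ≤ Φ → |φ.im| ≤ θ →
        c * φ.re ^ N ≤ ‖Polynomial.aeval (4 * Complex.sinh φ ^ 2) X‖ * Real.exp (-(m * φ.re)) ∧
        ‖Polynomial.aeval (4 * Complex.sinh φ ^ 2) X‖ * Real.exp (-(m * φ.re)) ≤ C / φ.re ^ N) →
      (∀ ε r x : ℝ, 0 < ε → ε ≤ r → r ≤ 4 * Real.sinh Φ ^ 2 → |x| ≤ π →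
        ‖Polynomial.aeval ((r : ℂ) * Complex.exp (x * Complex.I)) X‖ ≤
          C3 ε * Real.exp (-(c3 ε * m * (1 - Real.cos x))) * X.eval r) →
      ∀ k : ℕ, 1 ≤ k → (k : ℝ) ≤ m / 2 * (Real.tanh Φ - η) →
        X.coeff (k - 1) * X.coeff (k + 1) ≤ X.coeff k ^ 2

end Pool.Agent.Helper39.EV
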