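import Mathlib

/-!
# The abstract saddle point lemma (helper39, project EV)

`saddle`: if on the circle of radius `r` the polynomial `X` with nonnegative coefficients
looks like a Gaussian with mean exactly `k` and large variance `V`, then
`p (k - 1) * p (k + 1) < p k ^ 2`.
-/

set_option autoImplicit false

open scoped Real
open MeasureTheory intervalIntegral

namespace Pool.Agent.Helper39.EV

private theorem exp_neg_le_six {y : ℝ} (hy : 0 < y) : Real.exp (-y) ≤ 720 / y ^ 6 := by
  have h := Real.pow_div_factorial_le_exp y hy.le 6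
  have h6 : ((6 : ℕ).factorial : ℝ) = 720 := by norm_num [Nat.factorial]
  rw [h6] at h
  rw [Real.exp_neg, inv_eq_one_div, div_le_div_iff₀ (Real.exp_pos y) (by positivity), one_mul]
  rw [div_le_iff₀ (by norm_num)] at h
  linarith

private theorem exp_neg_le_two {y : ℝ} (hy : 0 < y) : Real.exp (-y) ≤ 2 / y ^ 2 := by
  have h := Real.pow_div_factorial_le_exp y hy.le 2
  have h6 : ((2 : ℕ).factorial : ℝ) = 2 := by norm_num [Nat.factorial]
  rw [h6] at h
  rw [Real.exp_neg, inv_eq_one_div, div_le_div_iff₀ (Real.exp_pos y) (by positivity), one_mul]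
  rw [div_le_iff₀ (by norm_num)] at h
  linarith

/-- The real integral. -/
theorem core (K th0 A c : ℝ) (hK : 0 < K) (hth : 0 < th0) (hA : 0 < A) (hc : 0 < c) :
    ∃ V0 : ℝ, 0 < V0 ∧ ∀ V : ℝ, V0 ≤ V → ∀ u : ℝ → ℝ, Continuous u →
      (∀ x : ℝ, |x| ≤ th0 → K * V * |x| ^ 3 ≤ 1 → Real.exp (-(V * x ^ 2) / 2 - 1) / 2 ≤ u x) →
      (∀ x : ℝ, |x| ≤ π → |u x| ≤ A * Real.exp (-(c * V * x ^ 2))) →
      0 < ∫ x in (-π)..π, u x * (1 - Real.cos x) := by
  set B : ℝ := A * (720 * K ^ 4 / c ^ 6 + 2 / (c ^ 2 * th0 ^ 4)) with hB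
  have hBpos : 0 < B := by positivity
  set e0 : ℝ := Real.exp (-(3 / 2)) with he0
  have he0pos : 0 < e0 := Real.exp_pos _
  set s0 : ℝ := max (max 1 (1 / th0)) (max K (33 * π ^ 3 * B / e0)) with hs0
  have hs0pos : 0 < s0 := lt_of_lt_of_le one_pos ((le_max_left _ _).trans (le_max_left _ _))
  refine ⟨s0 ^ 2, by positivity, fun V hV u hu h1 h2 => ?_⟩
  have hpi : 0 < π := Real.pi_pos
  have hpi3 : 3 < π := Real.pi_gt_three
  obtain ⟨s, hs, hsV⟩ : ∃ s : ℝ, s0 ≤ s ∧ V = s ^ 2 := by
    refine ⟨Real.sqrt V, ?_, ?_⟩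
    · rw [show s0 = Real.sqrt (s0 ^ 2) from (Real.sqrt_sq hs0pos.le).symm]
      exact Real.sqrt_le_sqrt hV
    · rw [Real.sq_sqrt]
      exact le_trans (by positivity) hV
  subst hsV
  have hspos : 0 < s := hs0pos.trans_le hs
  have hs1 : 1 ≤ s := ((le_max_left _ _).trans (le_max_left _ _)).trans hs
  have hsth : 1 / th0 ≤ s := ((le_max_right _ _).trans (le_max_left _ _)).trans hs
  have hsK : K ≤ s := ((le_max_left _ _).trans (le_max_right _ _)).trans hs
  have hsB : 33 * π ^ 3 * B / e0 ≤ s := ((le_max_right _ _).trans (le_max_right _ _)).trans hs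
  set d : ℝ := 1 / s with hd
  have hdpos : 0 < d := by positivity
  have hd1 : d ≤ 1 := by
    rw [hd, div_le_one hspos]; exact hs1
  have hdth : d ≤ th0 := by
    rw [hd, div_le_iff₀ hspos]
    rw [div_le_iff₀ hth] at hsth
    linarith
  have hsd : s * d = 1 := by rw [hd]; field_simp
  -- lower bound everywhere
  have hlow : ∀ x : ℝ, |x| ≤ π → -(B / s ^ 4) ≤ u x := by
    intro x hx
    have hBs : 0 < B / s ^ 4 := by positivity
    by_cases hxt : |x| ≤ th0
    · by_cases hxK : K * s ^ 2 * |x| ^ 3 ≤ 1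
      · have h3 := h1 x hxt hxK
        have h4 : 0 < Real.exp (-(s ^ 2 * x ^ 2) / 2 - 1) / 2 := by positivity
        linarith
      · push Not at hxK
        have hx0 : 0 < |x| := by
          rcases (abs_nonneg x).lt_or_eq with h | h
          · exact h
          · rw [← h] at hxK
            norm_num at hxK
        set y : ℝ := s ^ 2 * |x| ^ 2 with hy
        have hypos : 0 < y := by positivity
        have hy6 : s ^ 4 / K ^ 4 ≤ y ^ 6 := by
          rw [div_le_iff₀ (by positivity)]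
          have h5 : 1 ≤ (K * s ^ 2 * |x| ^ 3) ^ 4 := one_le_pow₀ hxK.le
          have h6 : y ^ 6 * K ^ 4 = s ^ 4 * (K * s ^ 2 * |x| ^ 3) ^ 4 := by rw [hy]; ring
          rw [h6]
          have : 0 < s ^ 4 := by positivity
          nlinarith
        have h3 := (abs_le.1 (h2 x hx)).1
        have h4 : Real.exp (-(c * s ^ 2 * x ^ 2)) ≤ 720 * K ^ 4 / c ^ 6 / s ^ 4 := by
          have h7 : c * s ^ 2 * x ^ 2 = c * y := by rw [hy, sq_abs]; ring
          rw [h7]
          refine (exp_neg_le_six (mul_pos hc hypos)).trans ?_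
          rw [div_div, mul_pow]
          rw [div_le_div_iff₀ (by positivity) (by positivity)]
          rw [div_le_iff₀ (by positivity)] at hy6
          have hc6 : 0 < c ^ 6 := by positivity
          nlinarith [mul_le_mul_of_nonneg_left hy6 hc6.le]
        have h8 : A * Real.exp (-(c * s ^ 2 * x ^ 2)) ≤ B / s ^ 4 := by
          calc A * Real.exp (-(c * s ^ 2 * x ^ 2)) ≤ A * (720 * K ^ 4 / c ^ 6 / s ^ 4) :=
                mul_le_mul_of_nonneg_left h4 hA.le
            _ = A * (720 * K ^ 4 / c ^ 6) / s ^ 4 := by ring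
            _ ≤ B / s ^ 4 := by
              rw [hB]
              gcongr
              have : 0 < 2 / (c ^ 2 * th0 ^ 4) := by positivity
              linarith
        linarith
    · push Not at hxt
      set y : ℝ := s ^ 2 * |x| ^ 2 with hy
      have hy0 : s ^ 2 * th0 ^ 2 ≤ y := by
        rw [hy]
        gcongr
      have hypos : 0 < y := lt_of_lt_of_le (by positivity) hy0
      have h3 := (abs_le.1 (h2 x hx)).1
      have h4 : Real.exp (-(c * s ^ 2 * x ^ 2)) ≤ 2 / (c ^ 2 * th0 ^ 4) / s ^ 4 := by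
        have h7 : c * s ^ 2 * x ^ 2 = c * y := by rw [hy, sq_abs]; ring
        rw [h7]
        refine (exp_neg_le_two (mul_pos hc hypos)).trans ?_
        rw [div_div, mul_pow]
        have h9 : (s ^ 2 * th0 ^ 2) ^ 2 ≤ y ^ 2 := by gcongr
        have h10 : c ^ 2 * th0 ^ 4 * s ^ 4 ≤ c ^ 2 * y ^ 2 := by
          calc c ^ 2 * th0 ^ 4 * s ^ 4 = c ^ 2 * (s ^ 2 * th0 ^ 2) ^ 2 := by ring
            _ ≤ c ^ 2 * y ^ 2 := by gcongr
        exact div_le_div_of_nonneg_left (by norm_num) (by positivity) h10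
      have h8 : A * Real.exp (-(c * s ^ 2 * x ^ 2)) ≤ B / s ^ 4 := by
        calc A * Real.exp (-(c * s ^ 2 * x ^ 2)) ≤ A * (2 / (c ^ 2 * th0 ^ 4) / s ^ 4) :=
              mul_le_mul_of_nonneg_left h4 hA.le
          _ = A * (2 / (c ^ 2 * th0 ^ 4)) / s ^ 4 := by ring
          _ ≤ B / s ^ 4 := by
            rw [hB]
            gcongr
            have : 0 < 720 * K ^ 4 / c ^ 6 := by positivity
            linarith
      linarith
  -- the pointwise bounds of the integrand
  have hcos0 : ∀ x : ℝ, 0 ≤ 1 - Real.cos x := fun x => by linarith [Real.cos_le_one x]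
  have hcos2 : ∀ x : ℝ, 1 - Real.cos x ≤ 2 := fun x => by linarith [Real.neg_one_le_cos x]
  have hf1 : ∀ x : ℝ, |x| ≤ π → -(2 * B / s ^ 4) ≤ u x * (1 - Real.cos x) := by
    intro x hx
    have h3 := hlow x hx
    have hBs : 0 < B / s ^ 4 := by positivity
    have h4 : -(B / s ^ 4) * (1 - Real.cos x) ≤ u x * (1 - Real.cos x) :=
      mul_le_mul_of_nonneg_right h3 (hcos0 x)
    have h5 : -(B / s ^ 4) * 2 ≤ -(B / s ^ 4) * (1 - Real.cos x) := by
      nlinarith [hcos2 x]
    calc -(2 * B / s ^ 4) = -(B / s ^ 4) * 2 := by ring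
      _ ≤ _ := h5.trans h4
  have hf2 : ∀ x : ℝ, d / 2 ≤ x → x ≤ d → e0 / (4 * π ^ 2) * d ^ 2 ≤ u x * (1 - Real.cos x) := by
    intro x hx1 hx2
    have hx0 : 0 < x := by linarith
    have habs : |x| = x := abs_of_pos hx0
    have h3 : e0 / 2 ≤ u x := by
      have hKx : K * s ^ 2 * |x| ^ 3 ≤ 1 := by
        rw [habs]
        have h9 : x ^ 3 ≤ d ^ 3 := by gcongr
        have h10 : K * s ^ 2 * x ^ 3 ≤ s * s ^ 2 * d ^ 3 := by
          have : 0 ≤ x ^ 3 := by positivity
          calc K * s ^ 2 * x ^ 3 ≤ s * s ^ 2 * x ^ 3 := by gcongr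
            _ ≤ s * s ^ 2 * d ^ 3 := by gcongr
        have h11 : s * s ^ 2 * d ^ 3 = (s * d) ^ 3 := by ring
        rw [h11, hsd, one_pow] at h10
        exact h10
      have h4 := h1 x (by rw [habs]; linarith) hKx
      refine le_trans ?_ h4
      rw [he0]
      gcongr
      have h12 : s ^ 2 * x ^ 2 ≤ 1 := by
        have h13 : s * x ≤ 1 := by
          rw [← hsd]; gcongr
        have h14 : 0 < s * x := by positivity
        nlinarith
      linarith
    have h4 : 2 / π ^ 2 * (d / 2) ^ 2 ≤ 1 - Real.cos x := by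
      have h5 := Real.cos_le_one_sub_mul_cos_sq (x := x) (by rw [habs]; linarith)
      have h6 : (d / 2) ^ 2 ≤ x ^ 2 := by gcongr
      have h7 : 2 / π ^ 2 * (d / 2) ^ 2 ≤ 2 / π ^ 2 * x ^ 2 := by gcongr
      linarith
    calc e0 / (4 * π ^ 2) * d ^ 2 = e0 / 2 * (2 / π ^ 2 * (d / 2) ^ 2) := by
          field_simp
          ring
      _ ≤ u x * (1 - Real.cos x) := by
          have : 0 < 2 / π ^ 2 * (d / 2) ^ 2 := by positivity
          exact mul_le_mul h3 h4 this.le (le_trans (by positivity) h3)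
  -- integrate
  have hcont : Continuous fun x : ℝ => u x * (1 - Real.cos x) := by fun_prop
  have hint : ∀ a b : ℝ, IntervalIntegrable (fun x : ℝ => u x * (1 - Real.cos x)) volume a b :=
    fun a b => hcont.intervalIntegrable a b
  have hsplit : ∫ x in (-π)..π, u x * (1 - Real.cos x) =
      (∫ x in (-π)..(d / 2), u x * (1 - Real.cos x)) +
      (∫ x in (d / 2)..d, u x * (1 - Real.cos x)) + ∫ x in d..π, u x * (1 - Real.cos x) := by
    rw [integral_add_adjacent_intervals (hint _ _) (hint _ _),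
      integral_add_adjacent_intervals (hint _ _) (hint _ _)]
  have hi1 : (d / 2 + π) * (-(2 * B / s ^ 4)) ≤ ∫ x in (-π)..(d / 2), u x * (1 - Real.cos x) := by
    have h3 : ∫ x in (-π)..(d / 2), (-(2 * B / s ^ 4) : ℝ) = (d / 2 + π) * (-(2 * B / s ^ 4)) := by
      rw [intervalIntegral.integral_const, smul_eq_mul]
      ring
    rw [← h3]
    refine integral_mono_on (by linarith) (by simp) (hint _ _) ?_
    intro x hx
    refine hf1 x ?_
    rw [abs_le]
    exact ⟨hx.1, by linarith [hx.2]⟩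
  have hi3 : (π - d) * (-(2 * B / s ^ 4)) ≤ ∫ x in d..π, u x * (1 - Real.cos x) := by
    have h3 : ∫ x in d..π, (-(2 * B / s ^ 4) : ℝ) = (π - d) * (-(2 * B / s ^ 4)) := by
      rw [intervalIntegral.integral_const, smul_eq_mul]
    rw [← h3]
    refine integral_mono_on (by linarith) (by simp) (hint _ _) ?_
    intro x hx
    refine hf1 x ?_
    rw [abs_le]
    exact ⟨by linarith [hx.1], hx.2⟩
  have hi2 : (d / 2) * (e0 / (4 * π ^ 2) * d ^ 2) ≤
      ∫ x in (d / 2)..d, u x * (1 - Real.cos x) := by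
    have h3 : ∫ x in (d / 2)..d, (e0 / (4 * π ^ 2) * d ^ 2 : ℝ) =
        (d / 2) * (e0 / (4 * π ^ 2) * d ^ 2) := by
      rw [intervalIntegral.integral_const, smul_eq_mul]
      ring
    rw [← h3]
    refine integral_mono_on (by linarith) (by simp) (hint _ _) ?_
    intro x hx
    exact hf2 x hx.1 hx.2
  rw [hsplit]
  have hfin : 0 < (d / 2 + π) * (-(2 * B / s ^ 4)) + (d / 2) * (e0 / (4 * π ^ 2) * d ^ 2) +
      (π - d) * (-(2 * B / s ^ 4)) := by
    have h5 : (d / 2 + π) * (-(2 * B / s ^ 4)) + (d / 2) * (e0 / (4 * π ^ 2) * d ^ 2) +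
      (π - d) * (-(2 * B / s ^ 4)) = (s * e0 - 8 * π ^ 2 * (2 * π - d / 2) * (2 * B)) /
        (8 * π ^ 2 * s ^ 4) := by
      rw [hd]
      field_simp
      ring
    rw [h5]
    apply div_pos _ (by positivity)
    rw [div_le_iff₀ he0pos] at hsB
    have h6 : 8 * π ^ 2 * (2 * π - d / 2) * (2 * B) = 32 * (π ^ 3 * B) - 8 * (π ^ 2 * B * d) := by
      ring
    have h7 : 0 < π ^ 2 * B * d := by positivity
    have h8 : 0 < π ^ 3 * B := by positivity
    have h9 : 33 * π ^ 3 * B = 33 * (π ^ 3 * B) := by ring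
    linarith
  linarith


private theorem int_cos (m : ℤ) : ∫ x in (-π)..π, Real.cos (m * x) = if m = 0 then 2 * π else 0 := by
  by_cases hm : m = 0
  · subst hm
    simp
    ring
  · rw [if_neg hm]
    have hm' : (m : ℝ) ≠ 0 := by exact_mod_cast hm
    rw [intervalIntegral.integral_comp_mul_left (fun y => Real.cos y) hm', integral_cos]
    have h1 : Real.sin ((m : ℝ) * π) = 0 := Real.sin_int_mul_pi m
    have h2 : Real.sin ((m : ℝ) * -π) = 0 := by
      rw [mul_neg, Real.sin_neg, h1, neg_zero]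
    rw [h1, h2]
    simp

private theorem int_cos_mul (n : ℤ) : ∫ x in (-π)..π, Real.cos (n * x) * (1 - Real.cos x) =
    (if n = 0 then 2 * π else 0) - (if n = -1 then π else 0) - (if n = 1 then π else 0) := by
  have h1 : ∀ x : ℝ, Real.cos (n * x) * (1 - Real.cos x) = Real.cos (n * x) -
      (Real.cos (((n + 1 : ℤ) : ℝ) * x) / 2 + Real.cos (((n - 1 : ℤ) : ℝ) * x) / 2) := by
    intro x
    push_cast
    have e1 : ((n : ℝ) + 1) * x = n * x + x := by ring
    have e2 : ((n : ℝ) - 1) * x = n * x - x := by ring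
    rw [e1, e2, Real.cos_add, Real.cos_sub]
    ring
  have hc : ∀ m : ℤ, IntervalIntegrable (fun x : ℝ => Real.cos (m * x)) volume (-π) π :=
    fun m => (by fun_prop : Continuous fun x : ℝ => Real.cos (m * x)).intervalIntegrable _ _
  have hc2 : ∀ m : ℤ, IntervalIntegrable (fun x : ℝ => Real.cos (m * x) / 2) volume (-π) π :=
    fun m => (by fun_prop : Continuous fun x : ℝ => Real.cos (m * x) / 2).intervalIntegrable _ _
  simp_rw [h1]
  rw [intervalIntegral.integral_sub (hc n) ((hc2 (n + 1)).add (hc2 (n - 1))),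
    intervalIntegral.integral_add (hc2 (n + 1)) (hc2 (n - 1)), intervalIntegral.integral_div,
    intervalIntegral.integral_div, int_cos, int_cos, int_cos]
  by_cases h0 : n = 0
  · subst h0; norm_num
  · by_cases h1 : n = 1
    · subst h1; norm_num
    · by_cases h2 : n = -1
      · subst h2; norm_num
      · have e1 : ¬ n + 1 = 0 := by omega
        have e2 : ¬ n - 1 = 0 := by omega
        simp [h0, h1, h2, e1, e2]

private theorem re_term (p r x : ℝ) (j k : ℕ) :
    ((p • ((r : ℂ) * Complex.exp (x * Complex.I)) ^ j : ℂ) *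
      Complex.exp (-(k * x * Complex.I))).re = p * r ^ j * Real.cos (((j : ℤ) - (k : ℤ) : ℤ) * x) := by
  have h1 : (p • ((r : ℂ) * Complex.exp (x * Complex.I)) ^ j : ℂ) *
      Complex.exp (-(k * x * Complex.I)) =
      ((p * r ^ j : ℝ) : ℂ) * Complex.exp (((((j : ℤ) - (k : ℤ) : ℤ) * x : ℝ) : ℂ) * Complex.I) := by
    rw [Complex.real_smul, mul_pow, ← Complex.exp_nat_mul, mul_assoc, mul_assoc, ← Complex.exp_add]
    push_cast
    rw [← mul_assoc]
    congr 2
    ring
  rw [h1, Complex.re_ofReal_mul, Complex.exp_ofReal_mul_I_re]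

private theorem cos_one_half : (1 / 2 : ℝ) ≤ Real.cos 1 := by
  rw [← Real.cos_pi_div_three]
  apply Real.cos_le_cos_of_nonneg_of_le_pi
  · norm_num
  · linarith [Real.pi_pos]
  · linarith [Real.pi_gt_three]

/-- The abstract saddle point lemma. -/
theorem saddle (K th0 A c : ℝ) (hK : 0 < K) (hth : 0 < th0) (hA : 0 < A) (hc : 0 < c) :
    ∃ V0 : ℝ, 0 < V0 ∧ ∀ V : ℝ, V0 ≤ V → ∀ (X : Polynomial ℝ) (r : ℝ) (k : ℕ), 0 < r → 1 ≤ k →
      (∀ j, 0 ≤ X.coeff j) → 0 < X.eval r →
      (∀ x : ℝ, |x| ≤ th0 → K * V * |x| ^ 3 ≤ 1 → ∃ E : ℂ, ‖E‖ ≤ K * V * |x| ^ 3 ∧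
        Polynomial.aeval ((r : ℂ) * Complex.exp (x * Complex.I)) X *
          Complex.exp (-(k * x * Complex.I)) =
            ((X.eval r : ℝ) : ℂ) * Complex.exp (-(V * x ^ 2) / 2 + E)) →
      (∀ x : ℝ, |x| ≤ π → ‖Polynomial.aeval ((r : ℂ) * Complex.exp (x * Complex.I)) X‖ ≤
        A * Real.exp (-(c * V * x ^ 2)) * X.eval r) →
      X.coeff (k - 1) * X.coeff (k + 1) < X.coeff k ^ 2 := by
  obtain ⟨V0, hV0, hcore⟩ := core K th0 A c hK hth hA hc
  refine ⟨V0, hV0, fun V hV X r k hr hk hpos hXr h1 h2 => ?_⟩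
  set u : ℝ → ℝ := fun x => (Polynomial.aeval ((r : ℂ) * Complex.exp (x * Complex.I)) X *
    Complex.exp (-(k * x * Complex.I))).re / X.eval r with hu
  have hucont : Continuous u := by
    rw [hu]
    refine Continuous.div_const ?_ _
    refine Complex.continuous_re.comp ?_
    refine Continuous.mul ?_ (by fun_prop)
    exact (Polynomial.continuous_aeval X).comp (by fun_prop)
  have hunorm : ∀ x : ℝ, ‖Complex.exp (-(k * x * Complex.I))‖ = 1 := by
    intro x
    have : (-(k * x * Complex.I) : ℂ) = ((-(k * x) : ℝ) : ℂ) * Complex.I := by push_cast; ring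
    rw [this, Complex.norm_exp_ofReal_mul_I]
  have hint := hcore V hV u hucont ?_ ?_
  · -- evaluate the integral
    set N : ℕ := max (X.natDegree + 1) (k + 2) with hN
    have hNd : X.natDegree < N := lt_of_lt_of_le (Nat.lt_succ_self _) (le_max_left _ _)
    have hNk : k + 2 ≤ N := le_max_right _ _
    have hsum : ∀ x : ℝ, u x * (1 - Real.cos x) = ∑ j ∈ Finset.range N,
        (X.coeff j * r ^ j / X.eval r) *
          (Real.cos (((j : ℤ) - (k : ℤ) : ℤ) * x) * (1 - Real.cos x)) := by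
      intro x
      rw [hu]
      simp only
      rw [Polynomial.aeval_eq_sum_range' hNd, Finset.sum_mul, Complex.re_sum, Finset.sum_div,
        Finset.sum_mul]
      refine Finset.sum_congr rfl fun j _ => ?_
      rw [re_term]
      ring
    have hci : ∀ j ∈ Finset.range N, IntervalIntegrable (fun x : ℝ =>
        (X.coeff j * r ^ j / X.eval r) *
          (Real.cos (((j : ℤ) - (k : ℤ) : ℤ) * x) * (1 - Real.cos x))) volume (-π) π := by
      intro j _
      exact (by fun_prop : Continuous fun x : ℝ => (X.coeff j * r ^ j / X.eval r) *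
          (Real.cos (((j : ℤ) - (k : ℤ) : ℤ) * x) * (1 - Real.cos x))).intervalIntegrable _ _
    simp_rw [hsum] at hint
    rw [intervalIntegral.integral_finsetSum hci] at hint
    simp_rw [intervalIntegral.integral_const_mul, int_cos_mul, mul_sub] at hint
    rw [Finset.sum_sub_distrib, Finset.sum_sub_distrib] at hint
    have e0 : ∑ j ∈ Finset.range N, X.coeff j * r ^ j / X.eval r *
        (if (j : ℤ) - (k : ℤ) = 0 then 2 * π else 0) = X.coeff k * r ^ k / X.eval r * (2 * π) := by
      rw [Finset.sum_eq_single k]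
      · simp
      · intro j _ hj
        rw [if_neg (by omega), mul_zero]
      · intro h
        exact absurd (Finset.mem_range.2 (by omega)) h
    have e1 : ∑ j ∈ Finset.range N, X.coeff j * r ^ j / X.eval r *
        (if (j : ℤ) - (k : ℤ) = -1 then π else 0) =
          X.coeff (k - 1) * r ^ (k - 1) / X.eval r * π := by
      rw [Finset.sum_eq_single (k - 1)]
      · rw [if_pos (by omega)]
      · intro j _ hj
        rw [if_neg (by omega), mul_zero]
      · intro h
        exact absurd (Finset.mem_range.2 (by omega)) h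
    have e2 : ∑ j ∈ Finset.range N, X.coeff j * r ^ j / X.eval r *
        (if (j : ℤ) - (k : ℤ) = 1 then π else 0) =
          X.coeff (k + 1) * r ^ (k + 1) / X.eval r * π := by
      rw [Finset.sum_eq_single (k + 1)]
      · rw [if_pos (by omega)]
      · intro j _ hj
        rw [if_neg (by omega), mul_zero]
      · intro h
        exact absurd (Finset.mem_range.2 (by omega)) h
    rw [e0, e1, e2] at hint
    have hpi := Real.pi_pos
    obtain ⟨k', rfl⟩ : ∃ k', k = k' + 1 := ⟨k - 1, by omega⟩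
    simp only [Nat.add_sub_cancel] at hint ⊢
    have h5 : 0 < 2 * X.coeff (k' + 1) * r - X.coeff k' - X.coeff (k' + 1 + 1) * r ^ 2 := by
      have h6 : X.coeff (k' + 1) * r ^ (k' + 1) / X.eval r * (2 * π) -
          X.coeff k' * r ^ k' / X.eval r * π - X.coeff (k' + 1 + 1) * r ^ (k' + 1 + 1) / X.eval r * π
          = (2 * X.coeff (k' + 1) * r - X.coeff k' - X.coeff (k' + 1 + 1) * r ^ 2) *
            (r ^ k' * π / X.eval r) := by
        field_simp
        ring
      rw [h6] at hint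
      exact (pos_iff_pos_of_mul_pos hint).2 (by positivity)
    have ha := hpos k'
    have hb := hpos (k' + 1)
    have hcc := hpos (k' + 1 + 1)
    -- arithmetic-geometric mean
    have h7 : X.coeff k' * X.coeff (k' + 1 + 1) * r ^ 2 < X.coeff (k' + 1) ^ 2 * r ^ 2 := by
      have h8 : 0 ≤ X.coeff (k' + 1 + 1) * r ^ 2 := by positivity
      have h9 : X.coeff k' + X.coeff (k' + 1 + 1) * r ^ 2 < 2 * (X.coeff (k' + 1) * r) := by
        linarith
      nlinarith [sq_nonneg (X.coeff k' - X.coeff (k' + 1 + 1) * r ^ 2)]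
    exact lt_of_mul_lt_mul_right h7 (by positivity)
  · intro x hx hxK
    obtain ⟨E, hE, hEq⟩ := h1 x hx hxK
    have h3 : u x = Real.exp (-(V * x ^ 2) / 2 + E.re) * Real.cos E.im := by
      rw [hu]
      simp only
      rw [hEq, Complex.re_ofReal_mul, mul_div_assoc, mul_comm, div_mul_cancel₀ _ hXr.ne',
        Complex.exp_re]
      have e1 : (-(V * x ^ 2) / 2 + E : ℂ).re = -(V * x ^ 2) / 2 + E.re := by
        have : (-(V * x ^ 2) / 2 : ℂ) = ((-(V * x ^ 2) / 2 : ℝ) : ℂ) := by push_cast; ring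
        rw [this, Complex.add_re, Complex.ofReal_re]
      have e2 : (-(V * x ^ 2) / 2 + E : ℂ).im = E.im := by
        have : (-(V * x ^ 2) / 2 : ℂ) = ((-(V * x ^ 2) / 2 : ℝ) : ℂ) := by push_cast; ring
        rw [this, Complex.add_im, Complex.ofReal_im, zero_add]
      rw [e1, e2]
    have hE1 : ‖E‖ ≤ 1 := hE.trans hxK
    have h4 : -1 ≤ E.re := by
      have := (abs_le.1 (Complex.abs_re_le_norm E)).1
      linarith
    have h5 : |E.im| ≤ 1 := (Complex.abs_im_le_norm E).trans hE1
    have h6 : (1 / 2 : ℝ) ≤ Real.cos E.im := by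
      refine cos_one_half.trans ?_
      rw [← Real.cos_abs E.im]
      apply Real.cos_le_cos_of_nonneg_of_le_pi (abs_nonneg _)
      · linarith [Real.pi_gt_three]
      · exact h5
    rw [h3]
    have h7 : Real.exp (-(V * x ^ 2) / 2 - 1) ≤ Real.exp (-(V * x ^ 2) / 2 + E.re) :=
      Real.exp_le_exp.2 (by linarith)
    calc Real.exp (-(V * x ^ 2) / 2 - 1) / 2 = Real.exp (-(V * x ^ 2) / 2 - 1) * (1 / 2) := by ring
      _ ≤ _ := mul_le_mul h7 h6 (by norm_num) (Real.exp_pos _).le
  · intro x hx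
    have h3 := h2 x hx
    rw [hu]
    simp only
    rw [abs_div, abs_of_pos hXr, div_le_iff₀ hXr]
    refine (Complex.abs_re_le_norm _).trans ?_
    rw [norm_mul, hunorm, mul_one]
    exact h3

end Pool.Agent.Helper39.EV
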